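import Pool.Agent.Helper68.Fam.Goals

/-!
# Project FAM, packet TWO1: at most one triple
-/

namespace NApexGraphs.Fam.Helper30

open SimpleGraph NApexGraphs NApexGraphs.Dom NApexGraphs.Fam

variable {V : Type}

/-- three points versus three points -/
theorem k33_points {H : SimpleGraph V} {P : Finset V} (A B : Finset V) (hA : A.card = 3)
    (hB : B.card = 3) (hAP : A ⊆ P) (hBP : B ⊆ P) (hd : Disjoint A B)
    (h : ∀ a ∈ A, ∀ b ∈ B, H.Adj a b) : ¬ Pl H (P : Set V) := by
  intro hpl
  apply hpl.2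
  let e := A.equivFinOfCardEq hA
  let f := B.equivFinOfCardEq hB
  apply hasK33_mk (fun i => {((e.symm i : A) : V)}) (fun i => {((f.symm i : B) : V)})
  · intro i; exact Conn.singleton H _
  · intro i; exact Conn.singleton H _
  · intro i j hij
    apply Set.disjoint_singleton.2
    intro h1
    exact hij (e.symm.injective (Subtype.ext h1))
  · intro i j hij
    apply Set.disjoint_singleton.2
    intro h1
    exact hij (f.symm.injective (Subtype.ext h1))
  · intro i j
    apply Set.disjoint_singleton.2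
    intro h1
    exact Finset.disjoint_left.1 hd (e.symm i).2 (h1 ▸ (f.symm j).2)
  · intro i j
    exact touch_singleton.2 (h _ (e.symm i).2 _ (f.symm j).2)
  · intro i
    rw [Set.singleton_subset_iff]
    exact hAP (e.symm i).2
  · intro i
    rw [Set.singleton_subset_iff]
    exact hBP (f.symm i).2

/-- the two other elements of a set with three elements -/
theorem others [DecidableEq V] {A : Finset V} {a : V} (hA : A.card = 3) (ha : a ∈ A) :
    ∃ a' a'', a' ∈ A ∧ a'' ∈ A ∧ a' ≠ a ∧ a'' ≠ a ∧ a' ≠ a'' := by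
  have h1 : (A.erase a).card = 2 := by rw [Finset.card_erase_of_mem ha, hA]
  obtain ⟨x, y, hxy, he⟩ := Finset.card_eq_two.1 h1
  have hx : x ∈ A.erase a := by rw [he]; simp
  have hy : y ∈ A.erase a := by rw [he]; simp
  rw [Finset.mem_erase] at hx hy
  exact ⟨x, y, hx.2, hy.2, hx.1, hy.1, hxy⟩

/-- a set with at most three elements does not contain four different ones -/
theorem no_four [DecidableEq V] {T : Finset V} (hT : T.card ≤ 3) {a b c d : V} (ha : a ∈ T)
    (hb : b ∈ T) (hc : c ∈ T) (hd : d ∈ T) (h1 : a ≠ b) (h2 : a ≠ c) (h3 : a ≠ d) (h4 : b ≠ c)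
    (h5 : b ≠ d) (h6 : c ≠ d) : False := by
  have hs : ({a, b, c, d} : Finset V) ⊆ T := by
    intro x hx
    simp only [Finset.mem_insert, Finset.mem_singleton] at hx
    rcases hx with rfl | rfl | rfl | rfl <;> assumption
  have hc4 : ({a, b, c, d} : Finset V).card = 4 := by
    rw [Finset.card_insert_of_notMem, Finset.card_insert_of_notMem,
      Finset.card_insert_of_notMem, Finset.card_singleton]
    · simpa using h6
    · simp only [Finset.mem_insert, Finset.mem_singleton, not_or]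
      exact ⟨h4, h5⟩
    · simp only [Finset.mem_insert, Finset.mem_singleton, not_or]
      exact ⟨h1, h2, h3⟩
  have := Finset.card_le_card hs
  omega

/-- exchange of a point of `B` with `w` -/
theorem swap_case [DecidableEq V] {H : SimpleGraph V} {P A B T : Finset V} {b w : V}
    (hA : A.card = 3) (hB : B.card = 3) (hAP : A ⊆ P) (hBP : B ⊆ P) (hd : Disjoint A B)
    (hw : w ∈ P) (hwA : w ∉ A) (hwB : w ∉ B) (hb : b ∈ B) (hwT : w ∉ T)
    (hTB : ∀ y ∈ B, y ∈ T → y = b)
    (adj : ∀ x ∈ P, ∀ y ∈ P, x ≠ y → ¬ (x ∈ A ∧ y ∈ A) → ¬ (x ∈ B ∧ y ∈ B) →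
      ¬ (x ∈ T ∧ y ∈ T) → H.Adj x y) : ¬ Pl H (P : Set V) := by
  apply k33_points A (insert w (B.erase b)) hA
  · rw [Finset.card_insert_of_notMem, Finset.card_erase_of_mem hb, hB]
    intro h
    exact hwB (Finset.mem_of_mem_erase h)
  · exact hAP
  · intro x hx
    rw [Finset.mem_insert] at hx
    rcases hx with rfl | hx
    · exact hw
    · exact hBP (Finset.mem_of_mem_erase hx)
  · rw [Finset.disjoint_left]
    intro x hx hx'
    rw [Finset.mem_insert] at hx'
    rcases hx' with rfl | hx'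
    · exact hwA hx
    · exact Finset.disjoint_left.1 hd hx (Finset.mem_of_mem_erase hx')
  · intro x hx y hy
    have hxB : x ∉ B := Finset.disjoint_left.1 hd hx
    rw [Finset.mem_insert] at hy
    rcases hy with rfl | hy
    · refine adj x (hAP hx) y hw ?_ (fun h => hwA h.2) (fun h => hxB h.1) (fun h => hwT h.2)
      rintro rfl
      exact hwA hx
    · rw [Finset.mem_erase] at hy
      refine adj x (hAP hx) y (hBP hy.2) ?_ (fun h => ?_) (fun h => hxB h.1) (fun h => ?_)
      · rintro rfl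
        exact hxB hy.2
      · exact Finset.disjoint_left.1 hd h.2 hy.2
      · exact hy.1 (hTB y hy.2 h.2)

/-- the case of a triple with one point in `A`, one in `B` and the seventh point -/
theorem k5_case [DecidableEq V] {H : SimpleGraph V} {P A B T : Finset V} {a b w : V}
    (hA : A.card = 3) (hB : B.card = 3) (hAP : A ⊆ P) (hBP : B ⊆ P) (hd : Disjoint A B)
    (hw : w ∈ P) (hwA : w ∉ A) (hwB : w ∉ B) (ha : a ∈ A) (hb : b ∈ B) (haT : a ∈ T)
    (hbT : b ∈ T) (hwT : w ∈ T) (hT : T.card ≤ 3)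
    (adj : ∀ x ∈ P, ∀ y ∈ P, x ≠ y → ¬ (x ∈ A ∧ y ∈ A) → ¬ (x ∈ B ∧ y ∈ B) →
      ¬ (x ∈ T ∧ y ∈ T) → H.Adj x y) : ¬ Pl H (P : Set V) := by
  obtain ⟨a', a'', ha', ha'', h1, h2, h3⟩ := others hA ha
  obtain ⟨b', b'', hb', hb'', k1, k2, k3⟩ := others hB hb
  have dAB : ∀ x ∈ A, ∀ y ∈ B, x ≠ y := by
    rintro x hx y hy rfl
    exact Finset.disjoint_left.1 hd hx hy
  have dAw : ∀ x ∈ A, x ≠ w := by
    rintro x hx rfl
    exact hwA hx
  have dBw : ∀ x ∈ B, x ≠ w := by
    rintro x hx rfl
    exact hwB hx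
  have hAT : ∀ x ∈ A, x ≠ a → x ∉ T := by
    intro x hx hxa hxT
    exact no_four hT hxT haT hbT hwT hxa (dAB x hx b hb) (dAw x hx) (dAB a ha b hb) (dAw a ha)
      (dBw b hb)
  have hBT : ∀ x ∈ B, x ≠ b → x ∉ T := by
    intro x hx hxb hxT
    exact no_four hT hxT haT hbT hwT (dAB a ha x hx).symm hxb (dBw x hx) (dAB a ha b hb)
      (dAw a ha) (dBw b hb)
  have eAB : ∀ x ∈ A, ∀ y ∈ B, (x ≠ a ∨ y ≠ b) → H.Adj x y := by
    intro x hx y hy h
    refine adj x (hAP hx) y (hBP hy) (dAB x hx y hy) (fun h' => ?_) (fun h' => ?_) (fun h' => ?_)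
    · exact Finset.disjoint_left.1 hd h'.2 hy
    · exact Finset.disjoint_left.1 hd hx h'.1
    · rcases h with h | h
      · exact hAT x hx h h'.1
      · exact hBT y hy h h'.2
  have eAw : ∀ x ∈ A, x ≠ a → H.Adj x w := by
    intro x hx h
    exact adj x (hAP hx) w hw (dAw x hx) (fun h' => hwA h'.2) (fun h' => hwB h'.2)
      (fun h' => hAT x hx h h'.1)
  have eBw : ∀ x ∈ B, x ≠ b → H.Adj x w := by
    intro x hx h
    exact adj x (hBP hx) w hw (dBw x hx) (fun h' => hwA h'.2) (fun h' => hwB h'.2)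
      (fun h' => hBT x hx h h'.1)
  intro hpl
  apply hpl.1
  apply hasK5_sets {a', b} {a''} {b', a} {b''} {w}
  · intro S hS
    simp only [List.mem_cons, List.not_mem_nil, or_false] at hS
    rcases hS with rfl | rfl | rfl | rfl | rfl
    · exact conn_pair (eAB a' ha' b hb (Or.inl h1))
    · exact Conn.singleton H _
    · exact conn_pair (eAB a ha b' hb' (Or.inr k1)).symm
    · exact Conn.singleton H _
    · exact Conn.singleton H _
  · simp only [List.pairwise_cons, List.mem_cons, List.not_mem_nil, or_false, forall_eq_or_imp,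
      forall_eq, IsEmpty.forall_iff, implies_true, List.Pairwise.nil, and_true]
    refine ⟨⟨?_, ?_, ?_, ?_⟩, ⟨?_, ?_, ?_⟩, ⟨?_, ?_⟩, ?_⟩
    · rw [Set.disjoint_singleton_right]
      rintro (h | h)
      · exact h3 h.symm
      · exact dAB a'' ha'' b hb h
    · rw [Set.disjoint_left]
      rintro x (h | h) (h' | h')
      · exact dAB a' ha' b' hb' (h.symm.trans h')
      · exact h1 (h.symm.trans h')
      · exact k1 (h'.symm.trans h)
      · exact dAB a ha b hb (h'.symm.trans h)
    · rw [Set.disjoint_singleton_right]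
      rintro (h | h)
      · exact dAB a' ha' b'' hb'' h.symm
      · exact k2 h
    · rw [Set.disjoint_singleton_right]
      rintro (h | h)
      · exact dAw a' ha' h.symm
      · exact dBw b hb h.symm
    · rw [Set.disjoint_singleton_left]
      rintro (h | h)
      · exact dAB a'' ha'' b' hb' h
      · exact h2 h
    · rw [Set.disjoint_singleton]
      exact dAB a'' ha'' b'' hb''
    · rw [Set.disjoint_singleton]
      exact dAw a'' ha''
    · rw [Set.disjoint_singleton_right]
      rintro (h | h)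
      · exact k3 h.symm
      · exact dAB a ha b'' hb'' h.symm
    · rw [Set.disjoint_singleton_right]
      rintro (h | h)
      · exact dBw b' hb' h.symm
      · exact dAw a ha h.symm
    · rw [Set.disjoint_singleton]
      exact dBw b'' hb''
  · simp only [List.pairwise_cons, List.mem_cons, List.not_mem_nil, or_false, forall_eq_or_imp,
      forall_eq, IsEmpty.forall_iff, implies_true, List.Pairwise.nil, and_true]
    refine ⟨⟨?_, ?_, ?_, ?_⟩, ⟨?_, ?_, ?_⟩, ⟨?_, ?_⟩, ?_⟩
    · exact ⟨b, Or.inr rfl, a'', rfl, (eAB a'' ha'' b hb (Or.inl h2)).symm⟩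
    · exact ⟨a', Or.inl rfl, b', Or.inl rfl, eAB a' ha' b' hb' (Or.inl h1)⟩
    · exact ⟨a', Or.inl rfl, b'', rfl, eAB a' ha' b'' hb'' (Or.inl h1)⟩
    · exact ⟨a', Or.inl rfl, w, rfl, eAw a' ha' h1⟩
    · exact ⟨a'', rfl, b', Or.inl rfl, eAB a'' ha'' b' hb' (Or.inl h2)⟩
    · exact ⟨a'', rfl, b'', rfl, eAB a'' ha'' b'' hb'' (Or.inl h2)⟩
    · exact ⟨a'', rfl, w, rfl, eAw a'' ha'' h2⟩
    · exact ⟨a, Or.inr rfl, b'', rfl, eAB a ha b'' hb'' (Or.inr k2)⟩
    · exact ⟨b', Or.inl rfl, w, rfl, eBw b' hb' k1⟩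
    · exact ⟨b'', rfl, w, rfl, eBw b'' hb'' k2⟩
  · intro S hS x hx
    simp only [List.mem_cons, List.not_mem_nil, or_false] at hS
    rcases hS with rfl | rfl | rfl | rfl | rfl
    · rcases hx with rfl | hx
      · exact hAP ha'
      · rw [Set.mem_singleton_iff] at hx
        subst hx
        exact hBP hb
    · rw [Set.mem_singleton_iff] at hx
      subst hx
      exact hAP ha''
    · rcases hx with rfl | hx
      · exact hBP hb'
      · rw [Set.mem_singleton_iff] at hx
        subst hx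
        exact hAP ha
    · rw [Set.mem_singleton_iff] at hx
      subst hx
      exact hBP hb''
    · rw [Set.mem_singleton_iff] at hx
      subst hx
      exact hw

theorem gTWO1 (hN : Goals.NORM2) : Goals.TWO1 := by
  intro V _ H P0 A0 B0 S h0 hS
  obtain ⟨P, A, B, hT, hPP, hPc, hAP, hBP, hA, hB⟩ := hN V H P0 A0 B0 S h0
  intro hpl0
  have hpl : Pl H (P : Set V) := hpl0.mono le_rfl (Finset.coe_subset.2 hPP)
  revert hpl
  by_cases hcase : ∃ T ∈ S, ∃ a ∈ A, ∃ b ∈ B, a ∈ T ∧ b ∈ T
  · obtain ⟨T, hTS, a, ha, b, hb, haT, hbT⟩ := hcase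
    have hSone : S = {T} := by
      apply Finset.eq_singleton_iff_unique_mem.2
      refine ⟨hTS, fun T' hT' => ?_⟩
      exact Finset.card_le_one.1 hS T' hT' T hTS
    have hadj : ∀ x ∈ P, ∀ y ∈ P, x ≠ y → ¬ (x ∈ A ∧ y ∈ A) → ¬ (x ∈ B ∧ y ∈ B) →
        ¬ (x ∈ T ∧ y ∈ T) → H.Adj x y := by
      intro x hx y hy hxy h1 h2 h3
      refine hT.adj x hx y hy hxy h1 h2 ?_
      intro T' hT'
      rw [hSone, Finset.mem_singleton] at hT'
      rw [hT']
      exact h3
    have hTc : T.card ≤ 3 := hT.cT T hTS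
    have hcP : P.card = 7 := by
      rw [hPc, hSone, Finset.card_singleton]
    obtain ⟨w, hwP, hwAB⟩ : ∃ w ∈ P, w ∉ A ∪ B := by
      by_contra hne
      push Not at hne
      have h1 : P ⊆ A ∪ B := hne
      have h2 := (Finset.card_le_card h1).trans (Finset.card_union_le A B)
      omega
    rw [Finset.mem_union, not_or] at hwAB
    obtain ⟨hwA, hwB⟩ := hwAB
    by_cases hwT : w ∈ T
    · exact k5_case hA hB hAP hBP hT.dis hwP hwA hwB ha hb haT hbT hwT hTc hadj
    · by_cases hTB : ∀ y ∈ B, y ∈ T → y = b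
      · exact swap_case hA hB hAP hBP hT.dis hwP hwA hwB hb hwT hTB hadj
      · push Not at hTB
        obtain ⟨b', hb', hb'T, hne⟩ := hTB
        have hTA : ∀ x ∈ A, x ∈ T → x = a := by
          intro x hx hxT
          by_contra hxa
          have e1 : x ≠ b := fun h => Finset.disjoint_left.1 hT.dis hx (h ▸ hb)
          have e2 : x ≠ b' := fun h => Finset.disjoint_left.1 hT.dis hx (h ▸ hb')
          have e3 : a ≠ b := fun h => Finset.disjoint_left.1 hT.dis ha (h ▸ hb)
          have e4 : a ≠ b' := fun h => Finset.disjoint_left.1 hT.dis ha (h ▸ hb')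
          exact no_four hTc hxT haT hbT hb'T hxa e1 e2 e3 e4 hne.symm
        exact swap_case hB hA hBP hAP hT.dis.symm hwP hwB hwA ha hwT hTA
          (fun x hx y hy hxy h1 h2 h3 => hadj x hx y hy hxy h2 h1 h3)
  · push Not at hcase
    apply k33_points A B hA hB hAP hBP hT.dis
    intro a ha b hb
    refine hT.adj a (hAP ha) b (hBP hb) ?_ (fun h => ?_) (fun h => ?_) ?_
    · rintro rfl
      exact Finset.disjoint_left.1 hT.dis ha hb
    · exact Finset.disjoint_left.1 hT.dis h.2 hb
    · exact Finset.disjoint_left.1 hT.dis ha h.1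
    · rintro T hTS ⟨h1, h2⟩
      exact hcase T hTS a ha b hb h1 h2

end NApexGraphs.Fam.Helper30
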